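import Mathlib

namespace MP_9bed89_co

open SimpleGraph Finset

/-- `Arrows N G`: every 2-colouring of the edges of the complete graph on `N` vertices contains a
monochromatic copy of `G`.  A 2-colouring is given by the graph `C` of the edges of the first
colour; the edges of the second colour form the complement `Cᶜ`. -/
def Arrows (N : ℕ) {V : Type} (G : SimpleGraph V) : Prop :=
  ∀ C : SimpleGraph (Fin N), G.IsContained C ∨ G.IsContained Cᶜ

/-- The diagonal Ramsey number `r(G,G)`. -/
noncomputable def ramsey {V : Type} (G : SimpleGraph V) : ℕ := sInf {N | Arrows N G}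

/-- `R n` is the least diagonal Ramsey number `r(G,G)` of a finite graph `G` with exactly `n`
edges. -/
noncomputable def R (n : ℕ) : ℕ :=
  sInf {r | ∃ (v : ℕ) (G : SimpleGraph (Fin v)), G.edgeSet.ncard = n ∧ ramsey G = r}

/-! ### Ramsey's theorem -/

lemma exists_mono_clique {V : Type} (C : SimpleGraph V) :
    ∀ (a b : ℕ) (S : Finset V), 2 ^ (a + b) ≤ #S →
      (∃ T ⊆ S, #T = a ∧ C.IsClique T) ∨ (∃ T ⊆ S, #T = b ∧ Cᶜ.IsClique T) := by
  classical
  intro a b
  induction' h : a + b with k ih generalizing a b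
  · intro S _
    have ha : a = 0 := by omega
    left
    exact ⟨∅, by simp, by simp [ha], by simp⟩
  · intro S hS
    rcases Nat.eq_zero_or_pos a with ha | ha
    · left; exact ⟨∅, by simp, by simp [ha], by simp⟩
    rcases Nat.eq_zero_or_pos b with hb | hb
    · right; exact ⟨∅, by simp, by simp [hb], by simp⟩
    have hSpos : 0 < #S := lt_of_lt_of_le (by positivity) hS
    obtain ⟨v, hv⟩ := Finset.card_pos.mp hSpos
    have h1 : #(S.erase v) = #S - 1 := Finset.card_erase_of_mem hv
    have h2 : #((S.erase v).filter (fun w => C.Adj v w)) +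
        #((S.erase v).filter (fun w => ¬ C.Adj v w)) = #(S.erase v) :=
      Finset.card_filter_add_card_filter_not (s := S.erase v) (fun w => C.Adj v w)
    have h3 : 2 ^ (k + 1) = 2 ^ k + 2 ^ k := by ring
    have h4 : 2 ^ k ≤ #((S.erase v).filter (fun w => C.Adj v w)) ∨
        2 ^ k ≤ #((S.erase v).filter (fun w => ¬ C.Adj v w)) := by omega
    rcases h4 with h4 | h4
    · rcases ih (a - 1) b (by omega) _ h4 with ⟨T, hT, hc, hcl⟩ | ⟨T, hT, hc, hcl⟩
      · left
        have hvT : v ∉ T := by
          intro hvT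
          have := hT hvT
          simp at this
        refine ⟨insert v T, ?_, ?_, ?_⟩
        · intro x hx
          rcases Finset.mem_insert.mp hx with rfl | hx
          · exact hv
          · exact Finset.mem_of_mem_erase (Finset.mem_filter.mp (hT hx)).1
        · rw [Finset.card_insert_of_notMem hvT, hc]; omega
        · rw [Finset.coe_insert, SimpleGraph.isClique_insert_of_notMem (by simpa using hvT)]
          refine ⟨hcl, fun w hw => ?_⟩
          exact (Finset.mem_filter.mp (hT (by simpa using hw))).2
      · right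
        refine ⟨T, ?_, hc, hcl⟩
        intro x hx
        exact Finset.mem_of_mem_erase (Finset.mem_filter.mp (hT hx)).1
    · rcases ih a (b - 1) (by omega) _ h4 with ⟨T, hT, hc, hcl⟩ | ⟨T, hT, hc, hcl⟩
      · left
        refine ⟨T, ?_, hc, hcl⟩
        intro x hx
        exact Finset.mem_of_mem_erase (Finset.mem_filter.mp (hT hx)).1
      · right
        have hvT : v ∉ T := by
          intro hvT
          have := hT hvT
          simp at this
        refine ⟨insert v T, ?_, ?_, ?_⟩
        · intro x hx
          rcases Finset.mem_insert.mp hx with rfl | hx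
          · exact hv
          · exact Finset.mem_of_mem_erase (Finset.mem_filter.mp (hT hx)).1
        · rw [Finset.card_insert_of_notMem hvT, hc]; omega
        · rw [Finset.coe_insert, SimpleGraph.isClique_insert_of_notMem (by simpa using hvT)]
          refine ⟨hcl, fun w hw => ?_⟩
          have h5 := Finset.mem_filter.mp (hT (by simpa using hw))
          rw [SimpleGraph.compl_adj]
          refine ⟨?_, h5.2⟩
          rintro rfl
          exact hvT (by simpa using hw)

/-- Many disjoint monochromatic cliques. -/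
lemma exists_disjoint_cliques {V : Type} [Fintype V] [DecidableEq V] (C : SimpleGraph V) (m : ℕ)
    (s : ℕ) (hV : 4 ^ m + s * m ≤ Fintype.card V) :
    ∃ T : Fin s → Finset V, (∀ i j, i ≠ j → Disjoint (T i) (T j)) ∧ (∀ i, #(T i) = m) ∧
      ∀ i, C.IsClique (T i) ∨ Cᶜ.IsClique (T i) := by
  induction' s with s ih
  · exact ⟨fun i => i.elim0, fun i => i.elim0, fun i => i.elim0, fun i => i.elim0⟩
  · obtain ⟨T, hT1, hT2, hT3⟩ := ih (by nlinarith [Nat.zero_le m])
    set U : Finset V := Finset.univ.biUnion T with hU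
    have hUc : #U ≤ s * m := by
      calc #U ≤ ∑ i : Fin s, #(T i) := Finset.card_biUnion_le
        _ = s * m := by simp [hT2]
    have hS : 2 ^ (m + m) ≤ #(Uᶜ) := by
      rw [Finset.card_compl]
      have h4 : 4 ^ m = 2 ^ (m + m) := by
        rw [show (4:ℕ) = 2 ^ 2 by norm_num, ← pow_mul]; congr 1; ring
      rw [← h4]
      have : (s + 1) * m = s * m + m := by ring
      omega
    have key : ∃ T' ⊆ Uᶜ, #T' = m ∧ (C.IsClique T' ∨ Cᶜ.IsClique T') := by
      rcases exists_mono_clique C m m Uᶜ hS with ⟨T', h1, h2, h3⟩ | ⟨T', h1, h2, h3⟩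
      · exact ⟨T', h1, h2, Or.inl h3⟩
      · exact ⟨T', h1, h2, Or.inr h3⟩
    obtain ⟨T', hT'1, hT'2, hT'3⟩ := key
    have hdisj : ∀ i, Disjoint T' (T i) := by
      intro i
      rw [Finset.disjoint_left]
      intro x hx hx'
      have := hT'1 hx
      rw [Finset.mem_compl] at this
      exact this (Finset.mem_biUnion.mpr ⟨i, Finset.mem_univ _, hx'⟩)
    refine ⟨Fin.cons T' T, ?_, ?_, ?_⟩
    · intro i j hij
      refine Fin.cases ?_ (fun i' => ?_) i hij
      · refine Fin.cases ?_ (fun j' => ?_) j
        · intro h; exact absurd rfl h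
        · intro _; simpa using hdisj j'
      · refine Fin.cases ?_ (fun j' => ?_) j
        · intro _; simpa using (hdisj i').symm
        · intro h; simpa using hT1 i' j' (by simpa using h)
    · intro i
      refine Fin.cases ?_ (fun i' => ?_) i
      · simpa using hT'2
      · simpa using hT2 i'
    · intro i
      refine Fin.cases ?_ (fun i' => ?_) i
      · simpa using hT'3
      · simpa using hT3 i'

/-- The disjoint union of `t` copies of `K_m`. -/
def cliques (t m : ℕ) : SimpleGraph (Fin t × Fin m) where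
  Adj x y := x ≠ y ∧ x.1 = y.1
  symm := ⟨fun _ _ h => ⟨h.1.symm, h.2.symm⟩⟩
  loopless := ⟨fun _ h => h.1 rfl⟩

lemma cliques_contained {V : Type} (C : SimpleGraph V) (t m : ℕ) (T : Fin t → Finset V)
    (h1 : ∀ i j, i ≠ j → Disjoint (T i) (T j)) (h2 : ∀ i, #(T i) = m)
    (h3 : ∀ i, C.IsClique (T i)) : (cliques t m).IsContained C := by
  classical
  let e : ∀ i, (Fin m ≃ T i) := fun i => (Finset.equivFinOfCardEq (h2 i)).symm
  have hinj : Function.Injective (fun x : Fin t × Fin m => ((e x.1 x.2 : T x.1) : V)) := by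
    rintro ⟨i, a⟩ ⟨j, b⟩ h
    simp only at h
    by_cases hij : i = j
    · subst hij
      have := (e i).injective (Subtype.ext h)
      rw [this]
    · exfalso
      have hd := h1 i j hij
      rw [Finset.disjoint_left] at hd
      exact hd (e i a).2 (h ▸ (e j b).2)
  refine ⟨⟨⟨fun x => ((e x.1 x.2 : T x.1) : V), ?_⟩, hinj⟩⟩
  rintro ⟨i, a⟩ ⟨j, b⟩ ⟨hne, hij⟩
  simp only at hij
  subst hij
  refine h3 i (e i a).2 (e i b).2 ?_
  intro h
  exact hne (hinj h)

lemma cliques_arrows (t m : ℕ) (N : ℕ) (hN : 4 ^ m + 2 * t * m ≤ N) :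
    Arrows N (cliques t m) := by
  classical
  intro C
  obtain ⟨T, h1, h2, h3⟩ := exists_disjoint_cliques C m (2 * t) (by simpa using hN)
  -- pigeonhole
  have hcard : #(Finset.univ.filter (fun i : Fin (2 * t) => C.IsClique (T i))) +
      #(Finset.univ.filter (fun i : Fin (2 * t) => ¬ C.IsClique (T i))) = 2 * t := by
    rw [Finset.card_filter_add_card_filter_not]; simp
  have h4 : t ≤ #(Finset.univ.filter (fun i : Fin (2 * t) => C.IsClique (T i))) ∨
      t ≤ #(Finset.univ.filter (fun i : Fin (2 * t) => ¬ C.IsClique (T i))) := by omega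
  have aux : ∀ (D : SimpleGraph (Fin N)) (F : Finset (Fin (2 * t))), t ≤ #F →
      (∀ i ∈ F, D.IsClique (T i)) → (cliques t m).IsContained D := by
    intro D F hF hcl
    obtain ⟨F', hF', hc⟩ := Finset.exists_subset_card_eq hF
    let e := (Finset.equivFinOfCardEq hc).symm
    refine cliques_contained D t m (fun i => T (e i : Fin (2 * t))) ?_ ?_ ?_
    · intro i j hij
      refine h1 _ _ ?_
      intro h
      exact hij (e.injective (Subtype.ext h))
    · intro i; exact h2 _
    · intro i; exact hcl _ (hF' (e i).2)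
  rcases h4 with h4 | h4
  · left
    refine aux C _ h4 ?_
    intro i hi
    exact (Finset.mem_filter.mp hi).2
  · right
    refine aux Cᶜ _ h4 ?_
    intro i hi
    exact (h3 i).resolve_left (Finset.mem_filter.mp hi).2

lemma Arrows.mono {V W : Type} {G : SimpleGraph V} {H : SimpleGraph W} {N : ℕ}
    (h : Arrows N H) (hG : G.IsContained H) : Arrows N G := by
  intro C
  rcases h C with h | h
  · exact Or.inl (hG.trans h)
  · exact Or.inr (hG.trans h)

/-- Ramsey numbers exist. -/
lemma exists_arrows {v : ℕ} (G : SimpleGraph (Fin v)) : ∃ N, Arrows N G := by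
  refine ⟨4 ^ v + 2 * 1 * v, Arrows.mono (cliques_arrows 1 v _ le_rfl) ?_⟩
  refine ⟨⟨⟨fun x => (0, x), ?_⟩, ?_⟩⟩
  · intro a b hab
    refine ⟨?_, rfl⟩
    intro h
    have : a = b := by simpa using h
    exact hab.ne this
  · intro a b hab
    exact (Prod.ext_iff.mp hab).2

lemma arrows_ramsey {v : ℕ} (G : SimpleGraph (Fin v)) : Arrows (ramsey G) G :=
  Nat.sInf_mem (s := {N | Arrows N G}) (exists_arrows G)

end MP_9bed89_co
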