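import Pool.Agent.Lib.MP_9bed89_co.Basic

namespace MP_9bed89_co

open SimpleGraph Finset

lemma card_const_on {α : Type} [Fintype α] [DecidableEq α] (E : Finset α) (b : Bool) :
    #(Finset.univ.filter (fun f : α → Bool => ∀ e ∈ E, f e = b)) * 2 ^ #E =
      2 ^ Fintype.card α := by
  have h1 : (Finset.univ.filter (fun f : α → Bool => ∀ e ∈ E, f e = b)) =
      Fintype.piFinset (fun e => if e ∈ E then {b} else Finset.univ) := by
    ext f
    simp only [Finset.mem_filter, Finset.mem_univ, true_and, Fintype.mem_piFinset]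
    constructor
    · intro h e
      by_cases he : e ∈ E
      · simp [he, h e he]
      · simp [he]
    · intro h e he
      have := h e
      simpa [he] using this
  rw [h1, Fintype.card_piFinset]
  have h2 : ∀ e : α, #(if e ∈ E then ({b} : Finset Bool) else Finset.univ) =
      if e ∈ E then 1 else 2 := by
    intro e
    by_cases he : e ∈ E <;> simp [he]
  simp_rw [h2]
  rw [Finset.prod_ite]
  simp only [Finset.prod_const_one, one_mul, Finset.prod_const]
  rw [← pow_add]
  congr 1
  have h3 := Finset.card_filter_add_card_filter_not (s := (Finset.univ : Finset α))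
    (fun e => e ∈ E)
  have h4 : (Finset.univ.filter (fun e => e ∈ E)) = E := by ext; simp
  rw [h4] at h3
  simp only [Finset.card_univ] at h3
  omega

lemma lower_count {v N n : ℕ} (G : SimpleGraph (Fin v)) (hn : G.edgeSet.ncard = n)
    (hN : 1 ≤ N) (h : Arrows N G) : 2 ^ n ≤ 2 * N ^ N := by
  classical
  -- `v ≤ N`
  have hv : v ≤ N := by
    rcases h ⊥ with ⟨⟨f, hf⟩⟩ | ⟨⟨f, hf⟩⟩
    · simpa using Fintype.card_le_of_injective _ hf
    · simpa using Fintype.card_le_of_injective _ hf
  set E0 : Finset (Sym2 (Fin v)) := G.edgeSet.toFinset with hE0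
  have hE0c : #E0 = n := by rw [← hn, Set.ncard_eq_toFinset_card']
  set M := Fintype.card (Sym2 (Fin N)) with hM
  let B : (Fin v → Fin N) → Bool → Finset (Sym2 (Fin N) → Bool) := fun φ b =>
    Finset.univ.filter (fun f => ∀ e ∈ E0.image (Sym2.map φ), f e = b)
  have hcover : (Finset.univ : Finset (Sym2 (Fin N) → Bool)) ⊆
      ((Finset.univ.filter (fun φ : Fin v → Fin N => Function.Injective φ)) ×ˢ
        (Finset.univ : Finset Bool)).biUnion (fun p => B p.1 p.2) := by
    intro f _
    rw [Finset.mem_biUnion]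
    rcases h (SimpleGraph.fromEdgeSet {e | f e = true}) with ⟨⟨φ, hφ⟩⟩ | ⟨⟨φ, hφ⟩⟩
    · refine ⟨(φ, true), by simpa using hφ, ?_⟩
      simp only [B, Finset.mem_filter, Finset.mem_univ, true_and, Finset.mem_image]
      rintro e ⟨e', he', rfl⟩
      induction' e' with x y
      have hxy : G.Adj x y := by simpa [hE0] using he'
      have := φ.map_adj hxy
      rw [SimpleGraph.fromEdgeSet_adj] at this
      exact this.1
    · refine ⟨(φ, false), by simpa using hφ, ?_⟩
      simp only [B, Finset.mem_filter, Finset.mem_univ, true_and, Finset.mem_image]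
      rintro e ⟨e', he', rfl⟩
      induction' e' with x y
      have hxy : G.Adj x y := by simpa [hE0] using he'
      have := φ.map_adj hxy
      rw [SimpleGraph.compl_adj, SimpleGraph.fromEdgeSet_adj] at this
      simp only [Set.mem_ofPred_eq, not_and, not_not] at this
      by_contra hcon
      rw [Bool.not_eq_false] at hcon
      exact this.1 (this.2 hcon)
  have hBc : ∀ φ : Fin v → Fin N, Function.Injective φ → ∀ b, #(B φ b) * 2 ^ n = 2 ^ M := by
    intro φ hφ b
    have hc : #(E0.image (Sym2.map φ)) = n := by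
      rw [Finset.card_image_of_injective _ (Sym2.map.injective hφ), hE0c]
    have := card_const_on (E0.image (Sym2.map φ)) b
    rw [hc] at this
    exact this
  have h1 : (2:ℕ) ^ M ≤ ∑ p ∈ ((Finset.univ.filter (fun φ : Fin v → Fin N =>
      Function.Injective φ)) ×ˢ (Finset.univ : Finset Bool)), #(B p.1 p.2) := by
    calc (2:ℕ) ^ M = #(Finset.univ : Finset (Sym2 (Fin N) → Bool)) := by
          simp [hM]
      _ ≤ _ := Finset.card_le_card hcover
      _ ≤ _ := Finset.card_biUnion_le
  have h2 : (2:ℕ) ^ M * 2 ^ n ≤ ∑ p ∈ ((Finset.univ.filter (fun φ : Fin v → Fin N =>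
      Function.Injective φ)) ×ˢ (Finset.univ : Finset Bool)), 2 ^ M := by
    calc (2:ℕ) ^ M * 2 ^ n ≤ (∑ p ∈ ((Finset.univ.filter (fun φ : Fin v → Fin N =>
      Function.Injective φ)) ×ˢ (Finset.univ : Finset Bool)), #(B p.1 p.2)) * 2 ^ n :=
          Nat.mul_le_mul_right _ h1
      _ = ∑ p ∈ ((Finset.univ.filter (fun φ : Fin v → Fin N =>
      Function.Injective φ)) ×ˢ (Finset.univ : Finset Bool)), #(B p.1 p.2) * 2 ^ n := by
          rw [Finset.sum_mul]
      _ = _ := by
          refine Finset.sum_congr rfl fun p hp => ?_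
          rw [Finset.mem_product, Finset.mem_filter] at hp
          exact hBc _ hp.1.2 _
  have h3 : #((Finset.univ.filter (fun φ : Fin v → Fin N =>
      Function.Injective φ)) ×ˢ (Finset.univ : Finset Bool)) ≤ N ^ v * 2 := by
    rw [Finset.card_product]
    refine Nat.mul_le_mul ?_ (by simp)
    calc _ ≤ #(Finset.univ : Finset (Fin v → Fin N)) := Finset.card_filter_le _ _
      _ = N ^ v := by simp
  rw [Finset.sum_const, smul_eq_mul] at h2
  have h4 : (2:ℕ) ^ M * 2 ^ n ≤ 2 ^ M * (N ^ v * 2) := by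
    calc _ ≤ _ := h2
      _ ≤ (N ^ v * 2) * 2 ^ M := Nat.mul_le_mul_right _ h3
      _ = _ := by ring
  have h5 : 2 ^ n ≤ N ^ v * 2 := Nat.le_of_mul_le_mul_left h4 (by positivity)
  calc 2 ^ n ≤ N ^ v * 2 := h5
    _ ≤ N ^ N * 2 := Nat.mul_le_mul_right _ (Nat.pow_le_pow_right hN hv)
    _ = _ := by ring

end MP_9bed89_co
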