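import Pool.Agent.Lib.MP_9bed89_co.Lower

namespace MP_9bed89_co

open SimpleGraph Finset

lemma cliques_card (t m : ℕ) [DecidableRel (cliques t m).Adj] :
    2 * #(cliques t m).edgeFinset = t * m * (m - 1) := by
  classical
  rw [← SimpleGraph.sum_degrees_eq_twice_card_edges]
  have h : ∀ x : Fin t × Fin m, (cliques t m).degree x = m - 1 := by
    rintro ⟨i, a⟩
    rw [← SimpleGraph.card_neighborFinset_eq_degree]
    have : (cliques t m).neighborFinset (i, a) =
        (Finset.univ.erase a).map ⟨fun b => (i, b), fun b c h => (Prod.ext_iff.mp h).2⟩ := by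
      ext ⟨j, b⟩
      simp only [SimpleGraph.mem_neighborFinset, Finset.mem_map, Finset.mem_erase,
        Finset.mem_univ, and_true]
      constructor
      · rintro ⟨h1, h2⟩
        simp only at h2
        subst h2
        refine ⟨b, ?_, rfl⟩
        rintro rfl
        exact h1 rfl
      · rintro ⟨c, hc, h⟩
        have h1 : i = j := (Prod.ext_iff.mp h).1
        have h2 : c = b := (Prod.ext_iff.mp h).2
        subst h1 h2
        refine ⟨?_, rfl⟩
        intro h
        exact hc (Prod.ext_iff.mp h).2.symm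
    rw [this, Finset.card_map, Finset.card_erase_of_mem (Finset.mem_univ _)]
    simp
  simp [h]

lemma exists_graph (t m n : ℕ) (h : 2 * n ≤ t * m * (m - 1)) :
    ∃ G : SimpleGraph (Fin (t * m)), G.edgeSet.ncard = n ∧
      ramsey G ≤ 4 ^ m + 2 * t * m := by
  classical
  have h1 : n ≤ #(cliques t m).edgeFinset := by
    have := cliques_card t m
    omega
  obtain ⟨F, hF, hFc⟩ := Finset.exists_subset_card_eq h1
  set G0 : SimpleGraph (Fin t × Fin m) := SimpleGraph.fromEdgeSet (F : Set (Sym2 _)) with hG0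
  have hle : G0 ≤ cliques t m := by
    intro x y hxy
    rw [hG0, SimpleGraph.fromEdgeSet_adj] at hxy
    have := hF (by simpa using hxy.1)
    simpa using this
  have hes : G0.edgeSet = (F : Set (Sym2 _)) := by
    rw [hG0, SimpleGraph.edgeSet_fromEdgeSet]
    ext e
    simp only [Set.mem_sdiff, Finset.mem_coe]
    constructor
    · exact fun h => h.1
    · intro he
      refine ⟨he, ?_⟩
      have h2 : e ∈ (cliques t m).edgeSet := by simpa using hF he
      exact (cliques t m).not_isDiag_of_mem_edgeSet h2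
  let iso := SimpleGraph.Iso.map (finProdFinEquiv (m := t) (n := m)) G0
  refine ⟨G0.map (finProdFinEquiv (m := t) (n := m)), ?_, ?_⟩
  · have h3 : Nat.card G0.edgeSet = Nat.card
        (G0.map (finProdFinEquiv (m := t) (n := m))).edgeSet :=
      Nat.card_congr iso.mapEdgeSet
    rw [← Nat.card_coe_set_eq, ← h3, Nat.card_coe_set_eq, hes, Set.ncard_coe_finset, hFc]
  · refine Nat.sInf_le ?_
    refine Arrows.mono (cliques_arrows t m _ le_rfl) ?_
    refine SimpleGraph.IsContained.trans ⟨iso.symm.toCopy⟩ ?_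
    exact ⟨SimpleGraph.Copy.ofLE _ _ hle⟩

lemma R_le (t m n : ℕ) (h : 2 * n ≤ t * m * (m - 1)) : R n ≤ 4 ^ m + 2 * t * m := by
  obtain ⟨G, hG, hr⟩ := exists_graph t m n h
  exact le_trans (Nat.sInf_le ⟨_, G, hG, rfl⟩) hr

lemma exists_R (n : ℕ) : ∃ (v : ℕ) (G : SimpleGraph (Fin v)), G.edgeSet.ncard = n ∧
    ramsey G = R n := by
  obtain ⟨G, hG, _⟩ := exists_graph n 2 n (by omega)
  exact Nat.sInf_mem (s := {r | ∃ (v : ℕ) (G : SimpleGraph (Fin v)),
    G.edgeSet.ncard = n ∧ ramsey G = r}) ⟨_, _, G, hG, rfl⟩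

lemma R_pos {n : ℕ} (hn : 1 ≤ n) : 1 ≤ R n := by
  obtain ⟨v, G, hG, hr⟩ := exists_R n
  by_contra hcon
  have h0 : R n = 0 := by omega
  have h1 := arrows_ramsey G
  rw [hr, h0] at h1
  have hv : v = 0 := by
    rcases h1 ⊥ with ⟨⟨f, hf⟩⟩ | ⟨⟨f, hf⟩⟩
    · simpa using Fintype.card_le_of_injective _ hf
    · simpa using Fintype.card_le_of_injective _ hf
  subst hv
  have : G.edgeSet = ∅ := by
    ext e
    induction' e with x y
    exact x.elim0
  rw [this] at hG
  simp at hG
  omega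

lemma lower_R {n : ℕ} (hn : 1 ≤ n) : 2 ^ n ≤ 2 * (R n) ^ (R n) := by
  obtain ⟨v, G, hG, hr⟩ := exists_R n
  have h1 := arrows_ramsey G
  rw [hr] at h1
  exact lower_count G hG (R_pos hn) h1

theorem lower_bound {n : ℕ} (hn : 2 ≤ n) : (n : ℝ) / (4 * Real.log n) ≤ R n := by
  have hn' : (2:ℝ) ≤ n := by exact_mod_cast hn
  have hlog2 : 0.6931471803 < Real.log 2 := Real.log_two_gt_d9
  have hlogn : Real.log 2 ≤ Real.log n := Real.log_le_log (by norm_num) hn'
  have hr1 : 1 ≤ R n := R_pos (by omega)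
  have hr1' : (1:ℝ) ≤ R n := by exact_mod_cast hr1
  have h1 := lower_R (n := n) (by omega)
  have h2 : (n:ℝ) * Real.log 2 ≤ Real.log 2 + R n * Real.log (R n) := by
    have h3 : ((2:ℝ) ^ n) ≤ 2 * (R n : ℝ) ^ (R n) := by exact_mod_cast h1
    have h4 := Real.log_le_log (by positivity) h3
    rw [Real.log_pow, Real.log_mul (by norm_num) (by positivity), Real.log_pow] at h4
    exact h4
  rcases le_or_gt (R n : ℝ) n with hle | hgt
  · have h5 : Real.log (R n) ≤ Real.log n := Real.log_le_log (by linarith) hle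
    have h6 : (R n : ℝ) * Real.log (R n) ≤ R n * Real.log n :=
      mul_le_mul_of_nonneg_left h5 (by linarith)
    rw [div_le_iff₀ (by linarith)]
    have h7 : ((n:ℝ) - 1) * Real.log 2 ≤ R n * Real.log n := by linarith
    have h8 : (n:ℝ) / 2 ≤ n - 1 := by linarith
    have h9 : (n:ℝ) / 2 * Real.log 2 ≤ ((n:ℝ) - 1) * Real.log 2 :=
      mul_le_mul_of_nonneg_right h8 (by linarith)
    nlinarith
  · rw [div_le_iff₀ (by linarith)]
    nlinarith

theorem upper_bound {n : ℕ} (hn : 2 ≤ n) : (R n : ℝ) ≤ 60 * (n / Real.log n) := by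
  have hn' : (2:ℝ) ≤ n := by exact_mod_cast hn
  have hlog2 : 0.6931471803 < Real.log 2 := Real.log_two_gt_d9
  have hlog2' : Real.log 2 < 0.6931471808 := Real.log_two_lt_d9
  have hlogn : Real.log 2 ≤ Real.log n := Real.log_le_log (by norm_num) hn'
  set L := Nat.log 2 n with hL
  have hL1 : 2 ^ L ≤ n := Nat.pow_log_le_self 2 (by omega)
  have hL2 : n < 2 ^ (L + 1) := Nat.lt_pow_succ_log_self (by norm_num) n
  set q := L / 4 with hq
  set s := Real.sqrt n with hs
  have hs0 : 0 < s := Real.sqrt_pos.mpr (by linarith)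
  have hss : s * s = n := Real.mul_self_sqrt (by linarith)
  have hs1 : 1 ≤ s := by nlinarith
  -- log n ≤ 2 s
  have hlogs : Real.log n ≤ 2 * s := by
    have h1 : Real.log n = 2 * Real.log s := by
      rw [hs, Real.log_sqrt (by linarith)]; ring
    have h2 : Real.log s ≤ s - 1 := Real.log_le_sub_one_of_pos hs0
    linarith
  -- s ≤ 2 n / log n
  have hsn : s ≤ 2 * (n / Real.log n) := by
    rw [mul_div_assoc', le_div_iff₀ (by linarith)]
    nlinarith
  -- 4 ^ m
  have h4m : ((4:ℝ) ^ (q + 2)) ≤ 16 * s := by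
    have h1 : ((4:ℝ) ^ q) ≤ s := by
      apply Real.le_sqrt_of_sq_le
      have h2 : ((4:ℝ) ^ q) ^ 2 = (2:ℝ) ^ (4 * q) := by
        rw [← pow_mul, show (4:ℝ) = 2 ^ 2 by norm_num, ← pow_mul]; congr 1; ring
      rw [h2]
      have h3 : (2:ℕ) ^ (4 * q) ≤ n := le_trans (Nat.pow_le_pow_right (by norm_num) (by omega)) hL1
      exact_mod_cast h3
    rw [pow_add]
    nlinarith
  -- lower bound for m - 1 = q + 1
  have hlogL : Real.log n ≤ (L + 1) * Real.log 2 := by
    have h1 : (n:ℝ) ≤ 2 ^ (L + 1) := by exact_mod_cast hL2.le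
    have h2 := Real.log_le_log (by linarith) h1
    rw [Real.log_pow] at h2
    push_cast at h2
    exact h2
  have hLlog : (L:ℝ) * Real.log 2 ≤ Real.log n := by
    have h1 : (2:ℝ) ^ L ≤ n := by exact_mod_cast hL1
    have h2 := Real.log_le_log (by positivity) h1
    rw [Real.log_pow] at h2
    exact h2
  have hqL : (L:ℝ) + 1 ≤ 4 * (q + 1) := by
    have : L + 1 ≤ 4 * (q + 1) := by omega
    exact_mod_cast this
  have hqL' : 4 * (q:ℝ) ≤ L := by
    have : 4 * q ≤ L := by omega
    exact_mod_cast this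
  set t := 2 * n / ((q + 2) * (q + 1)) + 1 with ht
  have ht1 : 2 * n ≤ t * (q + 2) * ((q + 2) - 1) := by
    have h1 : 0 < (q + 2) * (q + 1) := by positivity
    have h2 := Nat.lt_div_mul_add (a := 2 * n) h1
    have h3 : t * (q + 2) * ((q + 2) - 1) = (2 * n / ((q + 2) * (q + 1))) *
        ((q + 2) * (q + 1)) + (q + 2) * (q + 1) := by
      rw [ht, show (q + 2) - 1 = q + 1 by omega]; ring
    rw [h3]
    exact h2.le
  have h5 := R_le t (q + 2) n ht1
  have ht2 : (t:ℝ) ≤ 2 * n / ((q + 2) * (q + 1)) + 1 := by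
    rw [ht]; push_cast
    have := Nat.cast_div_le (α := ℝ) (m := 2 * n) (n := (q + 2) * (q + 1))
    push_cast at this
    linarith
  have h6 : (R n : ℝ) ≤ 4 ^ (q + 2) + 2 * t * (q + 2) := by exact_mod_cast h5
  have h7 : 2 * (t:ℝ) * (q + 2) ≤ 4 * (n / (q + 1)) + 2 * (q + 2) := by
    have h8 : 2 * (t:ℝ) * (q + 2) ≤ 2 * (2 * n / ((q + 2) * (q + 1)) + 1) * (q + 2) := by
      have : (0:ℝ) ≤ q + 2 := by positivity
      nlinarith
    have h9 : 2 * (2 * (n:ℝ) / ((q + 2) * (q + 1)) + 1) * (q + 2) =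
        4 * (n / (q + 1)) + 2 * (q + 2) := by
      have h10 : (0:ℝ) < q + 2 := by positivity
      have h11 : (0:ℝ) < q + 1 := by positivity
      field_simp
      ring
    linarith
  have h8 : (n:ℝ) / (q + 1) ≤ 4 * Real.log 2 * (n / Real.log n) := by
    rw [div_le_iff₀ (by positivity)]
    have h9 : Real.log n ≤ 4 * Real.log 2 * (q + 1) := by nlinarith
    have h10 : 4 * Real.log 2 * ((n:ℝ) / Real.log n) * (q + 1) =
        (4 * Real.log 2 * (q + 1)) * n / Real.log n := by ring
    rw [h10, le_div_iff₀ (by linarith)]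
    nlinarith
  have h9 : 2 * ((q:ℝ) + 2) ≤ 6 * s := by
    have h10 : (L:ℝ) ≤ 3 * s := by
      by_contra hcon
      push Not at hcon
      nlinarith
    nlinarith
  have hpos : 0 ≤ (n:ℝ) / Real.log n := div_nonneg (by linarith) (by linarith)
  nlinarith

end MP_9bed89_co
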